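import Pool.Agent.Y911.HS.Main

/-! # Topologically one-dimensional solutions in every dimension at least three:
a one-parameter family, for every nonlinearity and every two-phase profile -/

set_option autoImplicit false

open scoped ContDiff Laplacian

namespace Pool.Agent.Results.MP_9aae89_an.AllDimensions

/-- Euclidean space of dimension `m + 3` -/
abbrev E (m : ℕ) : Type := EuclideanSpace ℝ (Fin (m + 3))

/-- the harmonic polynomial `l x₀ + l³ (x₁³ - 3 x₁ x₂²)` -/
def P (m : ℕ) (l : ℝ) (x : E m) : ℝ := l * x 0 + l ^ 3 * ((x 1) ^ 3 - 3 * x 1 * (x 2) ^ 2)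

/-- `u` is the two-phase profile `α x₀⁺ - β x₀⁻` composed with a homeomorphism of the space -/
def IsProfile (m : ℕ) (u : E m → ℝ) (α β : ℝ) : Prop :=
  ∃ Φ : E m ≃ₜ E m, ∀ x, u x = α * max ((Φ x) 0) 0 - β * max (-((Φ x) 0)) 0

/-- `u` is a function of one coordinate after a rigid motion -/
def OneCoord (m : ℕ) (u : E m → ℝ) : Prop :=
  ∃ (g : E m ≃ᵃⁱ[ℝ] E m) (V : ℝ → ℝ), ∀ x, u x = V ((g x) 0)

/-- `u` is a function of two linear forms -/
def TwoForms (m : ℕ) (u : E m → ℝ) : Prop :=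
  ∃ (A : E m →ₗ[ℝ] (Fin 2 → ℝ)) (V : (Fin 2 → ℝ) → ℝ), ∀ x, u x = V (A x)

/-- `u` and `w` agree up to a rigid motion -/
def Congruent (m : ℕ) (u w : E m → ℝ) : Prop :=
  ∃ g : E m ≃ᵃⁱ[ℝ] E m, ∀ x, u x = w (g x)

/-- Let `n = m + 3` be any dimension at least three and let `f` be smooth with compact support
(no sign condition).  There are `l₀ > 0`, `K` and functions `u l` for `l ≥ l₀` with:

* `u l` is smooth and solves `Δ (u l) = f (u l)` on the whole space;
* `u l` is within `K / l ^ 2` of the harmonic polynomial `l x₀ + l³ (x₁³ - 3 x₁ x₂²)`;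
* for ALL `α, β > 0`, `u l` is `α x₀⁺ - β x₀⁻` composed with a homeomorphism of the space;
* `u l` is not a function of one coordinate after any rigid motion, and not even a function of
  two linear forms;
* for different parameters the solutions are not congruent. -/
theorem result (m : ℕ) (f : ℝ → ℝ) (hf : ContDiff ℝ ∞ f) (hs : HasCompactSupport f) :
    ∃ (l₀ K : ℝ) (u : ℝ → E m → ℝ), 0 < l₀ ∧
      (∀ l, l₀ ≤ l →
        ContDiff ℝ ∞ (u l) ∧
        (∀ x, (Δ (u l)) x = f (u l x)) ∧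
        (∀ x, |u l x - P m l x| ≤ K / l ^ 2) ∧
        (∀ α β : ℝ, 0 < α → 0 < β → IsProfile m (u l) α β) ∧
        ¬ OneCoord m (u l) ∧ ¬ TwoForms m (u l)) ∧
      (∀ l l', l₀ ≤ l → l₀ ≤ l' → Congruent m (u l) (u l') → l = l') := by
  obtain ⟨l₀, K, u, h0, h1, h2⟩ := Pool.Agent.Y911.HS.main m f hf hs
  refine ⟨l₀, K, u, h0, fun l hl => ?_, fun l l' hl hl' hg => ?_⟩
  · obtain ⟨a, b, c, d, e, g⟩ := h1 l hl
    exact ⟨a, b, c, d, g, e⟩
  · obtain ⟨g, hg⟩ := hg
    exact h2 l l' hl hl' g hg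

end Pool.Agent.Results.MP_9aae89_an.AllDimensions
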